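import Pool.Agent.H156.Upcycle

/-!
# Universal partial words with arbitrarily large diamondicity

For every `d ≥ 2` there is a nontrivial universal partial word for `{0, 1, 2, 3}^(4 d)` every window
of which contains exactly `d` wildcards.
-/

set_option autoImplicit false

namespace Pool.Agent.Results.MP_6670e5_co.Diamondicity

/-- A partial word of length `L` over the alphabet `{0, …, a - 1}`; `none` is the wildcard. -/
abbrev PartialWord (a L : ℕ) := Fin L → Option (Fin a)

/-- The word `v` of length `n` is covered by `w` at the starting position `i`, where the window of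
length `n` starting at `i` is contained in `w`. -/
def CoveredAt {a L n : ℕ} (w : PartialWord a L) (v : Fin n → Fin a) (i : ℕ) : Prop :=
  ∃ h : i + n ≤ L, ∀ j : Fin n, w ⟨i + j, by omega⟩ = none ∨ w ⟨i + j, by omega⟩ = some (v j)

/-- `w` is a universal partial word for `{0, …, a - 1}^n`: every word of length `n` is covered at
exactly one starting position. -/
def IsUniversal {a L : ℕ} (n : ℕ) (w : PartialWord a L) : Prop :=
  ∀ v : Fin n → Fin a, ∃! i : ℕ, CoveredAt w v i

/-- `w` contains at least one wildcard and at least one letter. -/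
def Nontrivial {a L : ℕ} (w : PartialWord a L) : Prop :=
  (∃ i, w i = none) ∧ ∃ i, w i ≠ none

/-- `w` has windows of length `n`, and each of them contains exactly `d` wildcards. -/
def HasDiamondicity {a L : ℕ} (n : ℕ) (w : PartialWord a L) (d : ℕ) : Prop :=
  n ≤ L ∧ ∀ (i : ℕ) (h : i + n ≤ L),
    (Finset.univ.filter (fun j : Fin n => w ⟨i + j, by omega⟩ = none)).card = d

theorem card_aux (d q : ℕ) :
    (Finset.univ.filter (fun j : Fin (4 * d) => (q + (j : ℕ)) % 4 = 0)).card = d := by
  have h : ∀ d : ℕ, ((Finset.range (4 * d)).filter (fun j => (q + j) % 4 = 0)).card = d := by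
    intro d
    induction d with
    | zero => simp
    | succ d ih =>
      rw [show 4 * (d + 1) = 4 * d + 1 + 1 + 1 + 1 by ring, Finset.range_add_one,
        Finset.range_add_one, Finset.range_add_one, Finset.range_add_one]
      simp only [Finset.filter_insert]
      rcases (show q % 4 = 0 ∨ q % 4 = 1 ∨ q % 4 = 2 ∨ q % 4 = 3 by omega) with h | h | h | h
      · rw [if_neg (by omega), if_neg (by omega), if_neg (by omega), if_pos (by omega),
          Finset.card_insert_of_notMem (by simp), ih]
      · rw [if_pos (by omega), if_neg (by omega), if_neg (by omega), if_neg (by omega),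
          Finset.card_insert_of_notMem (by simp), ih]
      · rw [if_neg (by omega), if_pos (by omega), if_neg (by omega), if_neg (by omega),
          Finset.card_insert_of_notMem (by simp), ih]
      · rw [if_neg (by omega), if_neg (by omega), if_pos (by omega), if_neg (by omega),
          Finset.card_insert_of_notMem (by simp), ih]
  refine Eq.trans (Finset.card_bij (fun j _ => (j : ℕ)) ?_ ?_ ?_) (h d)
  · intro j hj
    rw [Finset.mem_filter] at hj ⊢
    exact ⟨Finset.mem_range.mpr j.isLt, hj.2⟩
  · intro j _ j' _ h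
    exact Fin.ext h
  · intro j hj
    rw [Finset.mem_filter, Finset.mem_range] at hj
    exact ⟨⟨j, hj.1⟩, by rw [Finset.mem_filter]; exact ⟨Finset.mem_univ _, hj.2⟩, rfl⟩

/-- For every `d ≥ 2` there is a nontrivial universal partial word for `{0, 1, 2, 3}^(4 d)` with
diamondicity `d`. -/
theorem result : ∀ d : ℕ, 2 ≤ d → ∃ (L : ℕ) (w : PartialWord 4 L),
    IsUniversal (4 * d) w ∧ Nontrivial w ∧ HasDiamondicity (4 * d) w d := by
  intro d hd
  obtain ⟨N, U, hN, h4, hU, hnone, hcov⟩ := Pool.Agent.H156.Upcycle.main d hd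
  refine ⟨N + 4 * d - 1, fun i => U i, fun v => ?_, ⟨⟨⟨0, by omega⟩, ?_⟩, ⟨⟨1, by omega⟩, ?_⟩⟩,
    ⟨by omega, fun i h => ?_⟩⟩
  · obtain ⟨i, ⟨hi, h1⟩, h2⟩ := hcov (fun x => if h : x < 4 * d then v ⟨x, h⟩ else 0)
    refine ⟨i, ⟨by omega, fun j => ?_⟩, ?_⟩
    · have := h1 j j.isLt
      rwa [dif_pos j.isLt] at this
    · rintro i' ⟨hi', h3⟩
      refine h2 i' ⟨by omega, fun x hx => ?_⟩
      have := h3 ⟨x, hx⟩
      rwa [dif_pos hx]
  · show U 0 = none
    rw [hnone]
  · show U 1 ≠ none
    rw [Ne, hnone]
    norm_num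
  · have : (Finset.univ.filter (fun j : Fin (4 * d) => U (i + (j : ℕ)) = none)) =
        (Finset.univ.filter (fun j : Fin (4 * d) => (i + (j : ℕ)) % 4 = 0)) := by
      refine Finset.filter_congr fun j _ => ?_
      rw [hnone]
    show (Finset.univ.filter (fun j : Fin (4 * d) => U (i + (j : ℕ)) = none)).card = d
    rw [this, card_aux]

end Pool.Agent.Results.MP_6670e5_co.Diamondicity
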